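import Pool.Agent.helper34.StrongNormal

namespace Pool.Agent.Results.MP_cd4dc1_an.SquareMinusMinModulus

universe u

variable {X : Type u} [NormedAddCommGroup X] [NormedSpace ℂ X]

/-- `X` is smooth: each unit vector `x` admits exactly one norm-one functional `f` with
`f x = 1`. -/
def Smooth (X : Type u) [NormedAddCommGroup X] [NormedSpace ℂ X] : Prop :=
  ∀ x : X, ‖x‖ = 1 → ∃! f : StrongDual ℂ X, ‖f‖ = 1 ∧ f x = 1

/-- The duality map: `dualityMap x` is a functional `f` with `‖f‖ = ‖x‖` and `f x = ‖x‖²`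
(it exists by the Hahn-Banach theorem, and it is unique when `X` is smooth). -/
noncomputable def dualityMap (x : X) : StrongDual ℂ X :=
  Classical.epsilon fun f : StrongDual ℂ X => ‖f‖ = ‖x‖ ∧ f x = (‖x‖ : ℂ) ^ 2

/-- `T` is self-adjoint: `J (T x) y = J x (T y)` for the duality map `J`. -/
def SelfAdj (T : X →L[ℂ] X) : Prop :=
  ∀ x y : X, dualityMap (T x) y = dualityMap x (T y)

/-- `A` is strongly normal: `A = S²` for a self-adjoint `S`. -/
def StronglyNormal (A : X →L[ℂ] X) : Prop :=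
  ∃ S : X →L[ℂ] X, SelfAdj S ∧ A = S ∘L S

/-- The minimum modulus `μ(T) = inf { ‖T x‖ : ‖x‖ = 1 }`. -/
noncomputable def minModulus (T : X →L[ℂ] X) : ℝ :=
  ⨅ x : Metric.sphere (0 : X) 1, ‖T x‖

/-- The duality map has its defining properties. -/
lemma dualityMap_spec (x : X) :
    ‖dualityMap x‖ = ‖x‖ ∧ dualityMap x x = (‖x‖ : ℂ) ^ 2 := by
  have h : ∃ f : StrongDual ℂ X, ‖f‖ = ‖x‖ ∧ f x = (‖x‖ : ℂ) ^ 2 := by
    by_cases hx : ‖x‖ = 0
    · refine ⟨0, ?_, ?_⟩
      · rw [norm_zero, hx]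
      · rw [hx]; simp
    · obtain ⟨g, hg1, hg2⟩ := exists_dual_vector ℂ x hx
      refine ⟨(‖x‖ : ℂ) • g, ?_, ?_⟩
      · rw [norm_smul, hg1, Complex.norm_real, norm_norm, mul_one]
      · rw [smul_apply, hg2, smul_eq_mul, sq]
        rfl
  exact Classical.epsilon_spec h

/-- Q2 has a positive answer: for every smooth Banach space `X` and every self-adjoint `T`
on `X`, the operator `T² - μ(T)² I` is strongly normal. -/
theorem result (X : Type u) [NormedAddCommGroup X] [NormedSpace ℂ X] [CompleteSpace X]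
    (hX : Smooth X) (T : X →L[ℂ] X) (hT : SelfAdj T) :
    StronglyNormal (T ∘L T - (minModulus T : ℂ) ^ 2 • ContinuousLinearMap.id ℂ X) := by
  obtain ⟨S, hS, h⟩ := Pool.Agent.helper34.StrongNormal.stronglyNormal_sq_sub
    (J := dualityMap) (T := T) dualityMap_spec hX hT
  refine ⟨S, hS, ?_⟩
  rw [sq T, sq S] at h
  exact h

end Pool.Agent.Results.MP_cd4dc1_an.SquareMinusMinModulus
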